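import Mathlib

/-!
# Averages of periodic functions over finite quotients of order prime to the characteristic
-/

set_option autoImplicit false

namespace Pool.Agent.Helper51.Width

variable {V : Type*} [AddCommGroup V] {k : Type*} [Field k]

/-- `ψ` is constant on the cosets of `U`. -/
def Per (U : AddSubgroup V) {X : Type*} (ψ : V → X) : Prop := ∀ v w, v - w ∈ U → ψ v = ψ w

/-- average over the quotient -/
noncomputable def avg (U : AddSubgroup V) (ψ : V → k) : k :=
  (U.index : k)⁻¹ * ∑ᶠ c : V ⧸ U, ψ c.out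

theorem good_inf {U U' : AddSubgroup V} (h : (U.index : k) ≠ 0) (h' : (U'.index : k) ≠ 0) :
    ((U ⊓ U').index : k) ≠ 0 := by
  rw [← AddSubgroup.relIndex_mul_index (inf_le_left : U ⊓ U' ≤ U), Nat.cast_mul]
  apply mul_ne_zero _ h
  rw [AddSubgroup.inf_relIndex_left]
  obtain ⟨m, hm⟩ := AddSubgroup.relIndex_dvd_index_of_normal U' U
  intro h0
  apply h'
  rw [hm, Nat.cast_mul, h0, zero_mul]

theorem good_iInf {ι : Type*} (S : Finset ι) (U : ι → AddSubgroup V)
    (h : ∀ s, ((U s).index : k) ≠ 0) : ((⨅ s ∈ S, U s).index : k) ≠ 0 := by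
  classical
  induction S using Finset.induction_on with
  | empty => simp
  | insert a S _ ih =>
    rw [Finset.iInf_insert]
    exact good_inf (h a) ih

theorem finite_of_good {U : AddSubgroup V} (h : (U.index : k) ≠ 0) : Finite (V ⧸ U) := by
  have : U.index ≠ 0 := by
    rintro h0
    exact h (by rw [h0, Nat.cast_zero])
  exact Nat.finite_of_card_ne_zero this

theorem per_out {U : AddSubgroup V} {X : Type*} {ψ : V → X} (h : Per U ψ) (v : V) :
    ψ ((v : V ⧸ U)).out = ψ v := by
  apply h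
  have h1 : (((v : V ⧸ U).out : V) : V ⧸ U) = (v : V ⧸ U) := Quotient.out_eq' _
  rw [QuotientAddGroup.eq] at h1
  have h2 := U.neg_mem h1
  have h3 : (v : V ⧸ U).out - v = -(-(v : V ⧸ U).out + v) := by abel
  rw [h3]
  exact h2

theorem avg_const {U : AddSubgroup V} (h : (U.index : k) ≠ 0) (a : k) :
    avg U (fun _ => a) = a := by
  have := finite_of_good h
  have := Fintype.ofFinite (V ⧸ U)
  unfold avg
  rw [finsum_eq_sum_of_fintype, Finset.sum_const, Finset.card_univ, ← Nat.card_eq_fintype_card,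
    nsmul_eq_mul]
  change (U.index : k)⁻¹ * (U.index * a) = a
  rw [← mul_assoc, inv_mul_cancel₀ h, one_mul]

theorem avg_sum {ι : Type*} (S : Finset ι) {U : AddSubgroup V} (h : (U.index : k) ≠ 0)
    (f g : ι → V → k) :
    avg U (fun v => ∑ s ∈ S, (f s v - g s v)) = ∑ s ∈ S, (avg U (f s) - avg U (g s)) := by
  have := finite_of_good h
  have := Fintype.ofFinite (V ⧸ U)
  unfold avg
  simp only [finsum_eq_sum_of_fintype]
  rw [Finset.sum_comm, Finset.mul_sum]
  apply Finset.sum_congr rfl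
  intro s _
  rw [Finset.sum_sub_distrib, mul_sub]

theorem avg_refine {U U' : AddSubgroup V} (hle : U' ≤ U) (h : (U'.index : k) ≠ 0) {ψ : V → k}
    (hψ : Per U ψ) : avg U' ψ = avg U ψ := by
  classical
  have hrel : ((U'.relIndex U : ℕ) : k) * (U.index : k) = (U'.index : k) := by
    rw [← Nat.cast_mul, AddSubgroup.relIndex_mul_index hle]
  have hrel0 : ((U'.relIndex U : ℕ) : k) ≠ 0 := fun h0 => h (by rw [← hrel, h0, zero_mul])
  have hU0 : (U.index : k) ≠ 0 := fun h0 => h (by rw [← hrel, h0, mul_zero])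
  have := finite_of_good h
  have := finite_of_good hU0
  have := Fintype.ofFinite (V ⧸ U)
  have := Fintype.ofFinite (V ⧸ U')
  have hfin : Finite (U ⧸ U'.addSubgroupOf U) := finite_of_good (k := k) hrel0
  have := Fintype.ofFinite (U ⧸ U'.addSubgroupOf U)
  unfold avg
  rw [finsum_eq_sum_of_fintype, finsum_eq_sum_of_fintype]
  have h1 : ∑ c : V ⧸ U', ψ c.out =
      ∑ c : (V ⧸ U) × (U ⧸ U'.addSubgroupOf U), ψ c.1.out := by
    apply Fintype.sum_equiv (AddSubgroup.quotientEquivProdOfLE hle)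
    intro c
    induction c using QuotientAddGroup.induction_on with
    | H v =>
      have h2 : ((AddSubgroup.quotientEquivProdOfLE hle) (v : V ⧸ U')).1 = (v : V ⧸ U) := rfl
      have hψ' : Per U' ψ := fun a b hab => hψ a b (hle hab)
      rw [h2, per_out hψ, per_out hψ']
  rw [h1, Fintype.sum_prod_type]
  simp only [Finset.sum_const, Finset.card_univ, nsmul_eq_mul]
  rw [← Finset.mul_sum, ← hrel]
  have h3 : (Fintype.card (U ⧸ U'.addSubgroupOf U) : k) = ((U'.relIndex U : ℕ) : k) := by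
    rw [← Nat.card_eq_fintype_card]
    rfl
  rw [h3]
  field_simp

theorem avg_map {U U' : AddSubgroup V} (σ : V ≃ V) (hσ : ∀ v w, v - w ∈ U' ↔ σ v - σ w ∈ U)
    {ψ : V → k} (hψ : Per U ψ) : avg U' (fun v => ψ (σ v)) = avg U ψ := by
  let e : V ⧸ U' ≃ V ⧸ U := Quotient.congr σ (by
    intro a b
    rw [QuotientAddGroup.leftRel_apply, QuotientAddGroup.leftRel_apply]
    have h1 : -a + b = b - a := by abel
    have h2 : -σ a + σ b = σ b - σ a := by abel
    rw [h1, h2]
    exact hσ b a)
  have hidx : U'.index = U.index := Nat.card_congr e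
  have hψ' : Per U' (fun v => ψ (σ v)) := fun v w h => hψ _ _ ((hσ v w).1 h)
  unfold avg
  rw [hidx]
  congr 1
  apply finsum_eq_of_bijective e e.bijective
  intro c
  induction c using QuotientAddGroup.induction_on with
  | H v =>
    have h2 : e (v : V ⧸ U') = (σ v : V ⧸ U) := rfl
    rw [h2, per_out hψ]
    exact per_out hψ' v

theorem no_solution {ι : Type*} (S : Finset ι) (ψ : ι → V → k) (σ : ι → V ≃ V)
    (τ : ι → V ≃+ V) (hσ : ∀ s v w, σ s v - σ s w = τ s (v - w))
    (hper : ∀ s, ∃ U : AddSubgroup V, (U.index : k) ≠ 0 ∧ Per U (ψ s))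
    (h : ∀ v, ∑ s ∈ S, (ψ s v - ψ s (σ s v)) = 1) : False := by
  classical
  choose U hU hUψ using hper
  set U' : ι → AddSubgroup V := fun s => (U s).comap (τ s).toAddMonoidHom with hU'
  have hmem : ∀ s v, v ∈ U' s ↔ τ s v ∈ U s := fun s v => Iff.rfl
  have hU'g : ∀ s, ((U' s).index : k) ≠ 0 := by
    intro s
    rw [hU']
    simp only
    rw [AddSubgroup.index_comap_of_surjective _ (τ s).surjective]
    exact hU s
  set W : AddSubgroup V := ⨅ s ∈ S, (U s ⊓ U' s) with hW
  have hWg : (W.index : k) ≠ 0 :=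
    good_iInf S (fun s => U s ⊓ U' s) (fun s => good_inf (hU s) (hU'g s))
  have hWU : ∀ s ∈ S, W ≤ U s := fun s hs => (iInf₂_le s hs).trans inf_le_left
  have hWU' : ∀ s ∈ S, W ≤ U' s := fun s hs => (iInf₂_le s hs).trans inf_le_right
  have h1 : avg W (fun v => ∑ s ∈ S, (ψ s v - ψ s (σ s v))) = (1 : k) := by
    simp only [h]
    exact avg_const hWg 1
  rw [avg_sum S hWg ψ (fun s v => ψ s (σ s v))] at h1
  have h2 : ∀ s ∈ S, avg W (ψ s) - avg W (fun v => ψ s (σ s v)) = 0 := by
    intro s hs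
    have h3 : avg W (ψ s) = avg (U s) (ψ s) := avg_refine (hWU s hs) hWg (hUψ s)
    have h4 : Per (U' s) (fun v => ψ s (σ s v)) := by
      intro v w hvw
      apply hUψ s
      rw [hσ]
      exact hvw
    have h5 : avg W (fun v => ψ s (σ s v)) = avg (U' s) (fun v => ψ s (σ s v)) :=
      avg_refine (hWU' s hs) hWg h4
    have h6 : avg (U' s) (fun v => ψ s (σ s v)) = avg (U s) (ψ s) := by
      apply avg_map (σ s) _ (hUψ s)
      intro v w
      rw [hσ]
      exact hmem s _
    rw [h3, h5, h6, sub_self]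
  rw [Finset.sum_eq_zero h2] at h1
  exact zero_ne_one h1

end Pool.Agent.Helper51.Width
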