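import Mathlib

/-!
# Brouwer's characterisation of the Cantor space
-/

set_option autoImplicit false

namespace Pool.Agent.Helper51.Width

/-- splitting levels of a point of a set of binary sequences -/
def Sp (K : Set (ℕ → Bool)) (x : ℕ → Bool) (n : ℕ) : Prop :=
  ∃ y ∈ K, (∀ i < n, y i = x i) ∧ y n ≠ x n

open Classical in
/-- read a point along its splitting levels -/
noncomputable def rd (K : Set (ℕ → Bool)) (x : ℕ → Bool) (k : ℕ) : Bool :=
  x (Nat.nth (Sp K x) k)

section

variable {K : Set (ℕ → Bool)}
  (hperf : ∀ x ∈ K, ∀ n : ℕ, ∃ y ∈ K, y ≠ x ∧ ∀ i < n, y i = x i)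

include hperf in
theorem sp_infinite {x : ℕ → Bool} (hx : x ∈ K) : {n | Sp K x n}.Infinite := by
  rw [Set.infinite_iff_exists_gt]
  intro N
  obtain ⟨y, hy, hne, hag⟩ := hperf x hx (N + 1)
  have hex : ∃ n, y n ≠ x n := by
    by_contra hc
    push Not at hc
    exact hne (funext hc)
  classical
  refine ⟨Nat.find hex, ⟨y, hy, ?_, Nat.find_spec hex⟩, ?_⟩
  · intro i hi
    by_contra hc
    exact Nat.find_min hex hi hc
  · by_contra hc
    exact Nat.find_spec hex (hag _ (by omega))

theorem sp_congr {x x' : ℕ → Bool} (hx : x ∈ K) (hx' : x' ∈ K) {m : ℕ}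
    (h : ∀ i < m, x i = x' i) : Sp K x m ↔ Sp K x' m := by
  by_cases hm : x m = x' m
  · constructor
    · rintro ⟨y, hy, h1, h2⟩
      exact ⟨y, hy, fun i hi => (h1 i hi).trans (h i hi), by rwa [← hm]⟩
    · rintro ⟨y, hy, h1, h2⟩
      exact ⟨y, hy, fun i hi => (h1 i hi).trans (h i hi).symm, by rwa [hm]⟩
  · constructor
    · intro _
      exact ⟨x, hx, h, hm⟩
    · intro _
      exact ⟨x', hx', fun i hi => (h i hi).symm, fun h' => hm h'.symm⟩

open Classical in
include hperf in
theorem nth_congr {x x' : ℕ → Bool} (hx : x ∈ K) (hx' : x' ∈ K) {k : ℕ}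
    (h : ∀ i < Nat.nth (Sp K x) k, x i = x' i) :
    Nat.nth (Sp K x') k = Nat.nth (Sp K x) k := by
  set n := Nat.nth (Sp K x) k with hn
  have h1 : Sp K x n := Nat.nth_mem_of_infinite (sp_infinite hperf hx) k
  have h2 : Nat.count (Sp K x) n = k := Nat.count_nth_of_infinite (sp_infinite hperf hx) k
  have h3 : Nat.count (Sp K x') n = k := by
    rw [← h2, Nat.count_eq_card_filter_range, Nat.count_eq_card_filter_range]
    congr 1
    apply Finset.filter_congr
    intro m hm
    rw [Finset.mem_range] at hm
    exact (sp_congr hx hx' (fun i hi => h i (hi.trans hm))).symm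
  have h4 : Sp K x' n := (sp_congr hx hx' h).1 h1
  rw [← h3]
  exact Nat.nth_count h4

include hperf in
theorem rd_congr {x x' : ℕ → Bool} (hx : x ∈ K) (hx' : x' ∈ K) {k : ℕ}
    (h : ∀ i < Nat.nth (Sp K x) k + 1, x i = x' i) : rd K x' k = rd K x k := by
  unfold rd
  rw [nth_congr hperf hx hx' (fun i hi => h i (by omega))]
  exact (h _ (by omega)).symm

include hperf in
theorem rd_continuous : Continuous (fun x : K => rd K x.1) := by
  rw [continuous_pi_iff]
  intro k
  rw [continuous_discrete_rng] 
  intro b
  rw [isOpen_iff_forall_mem_open]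
  rintro ⟨x, hx⟩ hxb
  refine ⟨{x' : K | ∀ i < Nat.nth (Sp K x) k + 1, x'.1 i = x i}, ?_, ?_, ?_⟩
  · rintro ⟨x', hx'⟩ h
    simp only [Set.mem_preimage, Set.mem_singleton_iff] at hxb ⊢
    rw [rd_congr hperf hx hx' (fun i hi => (h i hi).symm)]
    exact hxb
  · have : {x' : K | ∀ i < Nat.nth (Sp K x) k + 1, x'.1 i = x i} =
        ⋂ i ∈ Finset.range (Nat.nth (Sp K x) k + 1), {x' : K | x'.1 i = x i} := by
      ext x'
      simp
    rw [this]
    apply isOpen_biInter_finset
    intro i _
    have hci : Continuous (fun x' : K => x'.1 i) :=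
      (continuous_apply i).comp continuous_subtype_val
    exact (isOpen_discrete ({x i} : Set Bool)).preimage hci
  · intro i _
    rfl

include hperf in
theorem rd_injective : Function.Injective (fun x : K => rd K x.1) := by
  rintro ⟨x, hx⟩ ⟨x', hx'⟩ h
  by_contra hne
  have hex : ∃ n, x n ≠ x' n := by
    by_contra hc
    push Not at hc
    exact hne (Subtype.ext (funext hc))
  classical
  set n := Nat.find hex with hn
  have h0 : ∀ i < n, x i = x' i := fun i hi => by
    by_contra hc
    exact Nat.find_min hex hi hc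
  have h1 : Sp K x n := ⟨x', hx', fun i hi => (h0 i hi).symm, fun h' => Nat.find_spec hex h'.symm⟩
  have h2 : Nat.nth (Sp K x) (Nat.count (Sp K x) n) = n := Nat.nth_count h1
  have h3 : Nat.nth (Sp K x') (Nat.count (Sp K x) n) = n := by
    rw [nth_congr hperf hx hx' (by rw [h2]; exact h0), h2]
  have h4 := congrFun h (Nat.count (Sp K x) n)
  simp only [rd] at h4
  rw [h2, h3] at h4
  exact Nat.find_spec hex h4

include hperf in
theorem rd_surjective (hK : IsClosed K) (hne : K.Nonempty) :
    Function.Surjective (fun x : K => rd K x.1) := by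
  intro b
  have step : ∀ N : ℕ, ∃ x : K, ∀ k < N, rd K x.1 k = b k := by
    intro N
    induction N with
    | zero =>
      obtain ⟨x, hx⟩ := hne
      exact ⟨⟨x, hx⟩, fun k hk => absurd hk (by omega)⟩
    | succ N ih =>
      obtain ⟨⟨x, hx⟩, h⟩ := ih
      by_cases hb : rd K x N = b N
      · refine ⟨⟨x, hx⟩, fun k hk => ?_⟩
        rcases Nat.lt_succ_iff_lt_or_eq.mp hk with h' | h'
        · exact h k h'
        · rw [h']; exact hb
      · classical
        have hm : Sp K x (Nat.nth (Sp K x) N) :=
          Nat.nth_mem_of_infinite (sp_infinite hperf hx) N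
        obtain ⟨y, hy, h1, h2⟩ := hm
        have h3 : Nat.nth (Sp K y) N = Nat.nth (Sp K x) N :=
          nth_congr hperf hx hy (fun i hi => (h1 i hi).symm)
        refine ⟨⟨y, hy⟩, fun k hk => ?_⟩
        rcases Nat.lt_succ_iff_lt_or_eq.mp hk with h' | h'
        · have hlt : Nat.nth (Sp K x) k < Nat.nth (Sp K x) N :=
            (Nat.nth_lt_nth (sp_infinite hperf hx)).2 h'
          rw [← h k h']
          exact rd_congr hperf hx hy (fun i hi => (h1 i (by omega)).symm)
        · subst h'
          change y (Nat.nth (Sp K y) k) = b k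
          rw [h3]
          change x (Nat.nth (Sp K x) k) ≠ b k at hb
          revert h2 hb
          cases y (Nat.nth (Sp K x) k) <;> cases x (Nat.nth (Sp K x) k) <;> cases b k <;> simp
  have hcomp : CompactSpace K := isCompact_iff_compactSpace.mp hK.isCompact
  have hcont := rd_continuous hperf
  have hclosed : ∀ N, IsClosed {x : K | ∀ k < N, rd K x.1 k = b k} := by
    intro N
    have : {x : K | ∀ k < N, rd K x.1 k = b k} =
        ⋂ k ∈ Finset.range N, {x : K | rd K x.1 k = b k} := by
      ext x
      simp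
    rw [this]
    apply isClosed_biInter
    intro k _
    exact (isClosed_discrete ({b k} : Set Bool)).preimage ((continuous_apply k).comp hcont)
  obtain ⟨x, hx⟩ := IsCompact.nonempty_iInter_of_sequence_nonempty_isCompact_isClosed
    (fun N => {x : K | ∀ k < N, rd K x.1 k = b k})
    (fun N x hx k hk => hx k (by omega)) (fun N => step N) (hclosed 0).isCompact hclosed
  refine ⟨x, funext fun k => ?_⟩
  rw [Set.mem_iInter] at hx
  exact hx (k + 1) k (by omega)

include hperf in
theorem homeo_of_closed (hK : IsClosed K) (hne : K.Nonempty) :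
    Nonempty (K ≃ₜ (ℕ → Bool)) := by
  have hcomp : CompactSpace K := isCompact_iff_compactSpace.mp hK.isCompact
  exact ⟨Continuous.homeoOfEquivCompactToT2
    (f := Equiv.ofBijective _ ⟨rd_injective hperf, rd_surjective hperf hK hne⟩)
    (rd_continuous hperf)⟩

end

/-- A nonempty compact Hausdorff space without isolated points whose points are separated by
countably many clopen sets is homeomorphic to the Cantor space. -/
theorem cantor_homeo {X : Type*} [TopologicalSpace X] [CompactSpace X] [T2Space X] [Nonempty X]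
    {J : Type*} [Countable J] (c : J → X → Bool) (hc : ∀ j, Continuous (c j))
    (hsep : ∀ x y, (∀ j, c j x = c j y) → x = y)
    (hperf : ∀ (x : X) (U : Set X), IsOpen U → x ∈ U → ∃ y ∈ U, y ≠ x) :
    Nonempty (X ≃ₜ (ℕ → Bool)) := by
  rcases isEmpty_or_nonempty J with hJ | hJ
  · obtain ⟨x⟩ := ‹Nonempty X›
    obtain ⟨y, -, hy⟩ := hperf x Set.univ isOpen_univ trivial
    exact absurd (hsep y x (fun j => (hJ.false j).elim)) hy
  · obtain ⟨g, hg⟩ := exists_surjective_nat J
    let e : X → (ℕ → Bool) := fun x n => c (g n) x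
    have he : Continuous e := continuous_pi (fun n => hc (g n))
    have hinj : Function.Injective e := by
      intro x y hxy
      apply hsep
      intro j
      obtain ⟨n, rfl⟩ := hg j
      exact congrFun hxy n
    have hemb : Topology.IsClosedEmbedding e := he.isClosedEmbedding hinj
    have h2 : Nonempty (Set.range e ≃ₜ (ℕ → Bool)) := by
      apply homeo_of_closed _ hemb.isClosed_range (Set.range_nonempty e)
      rintro _ ⟨x, rfl⟩ n
      obtain ⟨y, hy, hne⟩ := hperf x {y | ∀ i ∈ Finset.range n, e y i = e x i} (by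
        have : {y | ∀ i ∈ Finset.range n, e y i = e x i} =
            ⋂ i ∈ Finset.range n, {y | e y i = e x i} := by
          ext y; simp
        rw [this]
        apply isOpen_biInter_finset
        intro i _
        exact (isOpen_discrete ({e x i} : Set Bool)).preimage ((continuous_apply i).comp he))
        (fun i _ => rfl)
      exact ⟨e y, ⟨y, rfl⟩, fun h => hne (hinj h), fun i hi => hy i (Finset.mem_range.mpr hi)⟩
    obtain ⟨h2⟩ := h2
    exact ⟨hemb.isEmbedding.toHomeomorph.trans h2⟩

end Pool.Agent.Helper51.Width
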