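import Mathlib

/-!
# Free Cantor flows, weak containment, width
-/

set_option autoImplicit false

namespace Pool.Agent.Helper51.Width

/-- the Cantor space -/
abbrev Cantor : Type := ℕ → Bool

/-- `Γ`-flows: actions of `Γ` on the Cantor space by homeomorphisms -/
abbrev Flow (Γ : Type) [Group Γ] : Type := Γ →* (Cantor ≃ₜ Cantor)

variable {Γ : Type} [Group Γ]

/-- The pattern `p_W(C, a)` of a family `C` of `k` sets: all `σ ⊆ [k] × W` such that the
intersection of the sets `γ · C i`, `(i, γ) ∈ σ`, is not empty. -/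
def pat (a : Flow Γ) (W : Finset Γ) {k : ℕ} (C : Fin k → Set Cantor) : Set (Set (Fin k × Γ)) :=
  {σ | (∀ p ∈ σ, p.2 ∈ W) ∧ (⋂ p ∈ σ, a p.2 '' C p.1).Nonempty}

/-- `P_{W,k}(a)`: the patterns of all closed covers of size `k` -/
def pats (a : Flow Γ) (W : Finset Γ) (k : ℕ) : Set (Set (Set (Fin k × Γ))) :=
  {P | ∃ C : Fin k → Set Cantor, (∀ i, IsClosed (C i)) ∧ (⋃ i, C i) = Set.univ ∧ P = pat a W C}

/-- The flow `a` weakly contains the flow `b`. -/
def WContains (a b : Flow Γ) : Prop := ∀ (W : Finset Γ) (k : ℕ), pats b W k ⊆ pats a W k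

/-- free flows: no element other than `1` fixes a point -/
def IsFreeFlow (a : Flow Γ) : Prop := ∀ γ : Γ, γ ≠ 1 → ∀ x, a γ x ≠ x

/-- the free flows -/
def FreeFlow (Γ : Type) [Group Γ] : Type := {a : Flow Γ // IsFreeFlow a}

/-- `b ≤ a` if `a` weakly contains `b` -/
instance : Preorder (FreeFlow Γ) where
  le b a := WContains a.1 b.1
  le_refl _ _ _ := subset_rfl
  le_trans _ _ _ h h' W k := (h W k).trans (h' W k)

/-- the partial order of weak equivalence classes of free flows -/
abbrev FreeClass (Γ : Type) [Group Γ] : Type := Antisymmetrization (FreeFlow Γ) (· ≤ ·)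

/-- The width of the weak containment order on the classes of free flows: the supremum of the
cardinalities of its antichains. -/
noncomputable def width (Γ : Type) [Group Γ] : Cardinal :=
  ⨆ s : {s : Set (FreeClass Γ) // IsAntichain (· ≤ ·) s}, Cardinal.mk s.1

end Pool.Agent.Helper51.Width
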