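import Mathlib

/-!
# Existence of points of the affine subshifts
-/

set_option autoImplicit false

namespace Pool.Agent.Helper51.Width

variable {Γ : Type} [Group Γ]

theorem exists_x (H : Subgroup Γ) (f : Γ) (l : ℕ)
    (hl : ∀ (γ : Γ) (k : ℤ), γ * f ^ k * γ⁻¹ ∈ H → (l : ℤ) ∣ k) :
    ∃ x : Γ → ZMod l, (∀ γ, x (γ * f) = x γ + 1) ∧ ∀ h ∈ H, ∀ γ, x (h * γ) = x γ := by
  let r : Setoid Γ :=
    { r := fun γ γ' => ∃ h ∈ H, ∃ k : ℤ, γ' = h * γ * f ^ k
      iseqv :=
        { refl := fun γ => ⟨1, H.one_mem, 0, by simp⟩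
          symm := by
            rintro γ γ' ⟨h, hh, k, rfl⟩
            exact ⟨h⁻¹, H.inv_mem hh, -k, by group⟩
          trans := by
            rintro γ γ' γ'' ⟨h, hh, k, rfl⟩ ⟨h', hh', k', rfl⟩
            exact ⟨h' * h, H.mul_mem hh' hh, k + k', by rw [zpow_add]; group⟩ } }
  let rep : Γ → Γ := fun γ => (Quotient.mk r γ).out
  have hrep : ∀ γ, ∃ k : ℤ, ∃ h ∈ H, γ = h * rep γ * f ^ k := by
    intro γ
    have h1 : r (rep γ) γ := Quotient.exact (Quotient.out_eq (Quotient.mk r γ))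
    obtain ⟨h, hh, k, hk⟩ := h1
    exact ⟨k, h, hh, hk⟩
  have hrc : ∀ γ γ', r γ γ' → rep γ' = rep γ := by
    intro γ γ' h
    change (Quotient.mk r γ').out = (Quotient.mk r γ).out
    rw [Quotient.sound h]
  choose k hk using hrep
  have huniq : ∀ γ (j : ℤ) (h : Γ), h ∈ H → γ = h * rep γ * f ^ j → (j : ZMod l) = k γ := by
    intro γ j h hh hj
    obtain ⟨h', hh', hj'⟩ := hk γ
    have h1 : rep γ * f ^ (j - k γ) * (rep γ)⁻¹ = h⁻¹ * h' := by
      have h2 : h * rep γ * f ^ j = h' * rep γ * f ^ (k γ) := hj.symm.trans hj'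
      have h3 : rep γ * f ^ j = h⁻¹ * (h' * rep γ * f ^ (k γ)) := by
        rw [← h2]; group
      rw [zpow_sub, ← mul_assoc, h3]
      group
    have h2 : rep γ * f ^ (j - k γ) * (rep γ)⁻¹ ∈ H := by
      rw [h1]
      exact H.mul_mem (H.inv_mem hh) hh'
    have h3 := hl _ _ h2
    rw [← sub_eq_zero, ← Int.cast_sub]
    exact (ZMod.intCast_zmod_eq_zero_iff_dvd _ l).2 h3
  refine ⟨fun γ => (k γ : ZMod l), ?_, ?_⟩
  · intro γ
    obtain ⟨h, hh, hj⟩ := hk γ
    have h1 : rep (γ * f) = rep γ := hrc γ (γ * f) ⟨1, H.one_mem, 1, by simp⟩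
    have h2 := huniq (γ * f) (k γ + 1) h hh (by
      rw [h1, zpow_add, zpow_one, ← mul_assoc, ← hj])
    change (k (γ * f) : ZMod l) = (k γ : ZMod l) + 1
    rw [← h2]
    push_cast
    rfl
  · intro g hg γ
    obtain ⟨h, hh, hj⟩ := hk γ
    have h1 : rep (g * γ) = rep γ := hrc γ (g * γ) ⟨g, hg, 0, by simp⟩
    exact (huniq (g * γ) (k γ) (g * h) (H.mul_mem hg hh) (by
      rw [h1, mul_assoc g h, mul_assoc g, ← hj])).symm

theorem exists_y (S : Finset Γ) (N : Subgroup Γ)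
    (hnorm : ∀ h ∈ Subgroup.closure (S : Set Γ), ∀ n ∈ N, h * n * h⁻¹ ∈ N)
    (hidx : N.relIndex (Subgroup.closure (S : Set Γ)) = 0) (p : ℕ) [Fact p.Prime] :
    ∃ y : Γ → Γ → ZMod p, (∀ γ, ∑ s ∈ S, (y γ s - y (γ * s) s) = 1) ∧
      ∀ n ∈ N, ∀ γ s, y (γ * n) s = y γ s := by
  classical
  set H := Subgroup.closure (S : Set Γ) with hH
  let r : H → (Γ ⧸ N) → (Γ ⧸ N) := fun h => Quotient.map' (fun γ => γ * (h : Γ)) (by
    intro a b hab
    rw [QuotientGroup.leftRel_apply] at hab ⊢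
    have h1 := hnorm (h : Γ)⁻¹ (H.inv_mem h.2) _ hab
    rw [inv_inv] at h1
    have h2 : (a * (h : Γ))⁻¹ * (b * (h : Γ)) = (h : Γ)⁻¹ * (a⁻¹ * b) * (h : Γ) := by group
    rw [h2]
    exact h1)
  have hr : ∀ h (γ : Γ), r h (γ : Γ ⧸ N) = ((γ * (h : Γ) : Γ) : Γ ⧸ N) := fun h γ => rfl
  have hrinj : ∀ h, Function.Injective (r h) := by
    intro h a b hab
    induction a using QuotientGroup.induction_on with
    | H a =>
      induction b using QuotientGroup.induction_on with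
      | H b =>
        rw [hr, hr, QuotientGroup.eq] at hab
        rw [QuotientGroup.eq]
        have h1 := hnorm (h : Γ) h.2 _ hab
        have h2 : (h : Γ) * ((a * (h : Γ))⁻¹ * (b * (h : Γ))) * (h : Γ)⁻¹ = a⁻¹ * b := by group
        rwa [h2] at h1
  have hSH : ∀ s : S, (s : Γ) ∈ H := fun s => Subgroup.subset_closure s.2
  let T : ((Γ ⧸ N) →₀ ZMod p) →ₗ[ZMod p] (S → ((Γ ⧸ N) →₀ ZMod p)) :=
    LinearMap.pi fun s => LinearMap.id - Finsupp.lmapDomain (ZMod p) (ZMod p) (r ⟨s, hSH s⟩)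
  have hT : ∀ f s, T f s = f - Finsupp.mapDomain (r ⟨s, hSH s⟩) f := fun f s => rfl
  have hker : LinearMap.ker T = ⊥ := by
    rw [LinearMap.ker_eq_bot']
    intro f hf
    have h1 : ∀ s : S, ∀ γ : Γ, f ((γ * (s : Γ) : Γ) : Γ ⧸ N) = f (γ : Γ ⧸ N) := by
      intro s γ
      have h2 : T f s = 0 := by rw [hf]; rfl
      rw [hT, sub_eq_zero] at h2
      have h3 := DFunLike.congr_fun h2 ((γ * (s : Γ) : Γ) : Γ ⧸ N)
      rw [h3]
      exact Finsupp.mapDomain_apply (hrinj ⟨s, hSH s⟩) f (γ : Γ ⧸ N)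
    have h2 : ∀ h ∈ H, ∀ γ : Γ, f ((γ * h : Γ) : Γ ⧸ N) = f (γ : Γ ⧸ N) := by
      intro h hh
      induction hh using Subgroup.closure_induction with
      | mem s hs => exact h1 ⟨s, hs⟩
      | one => intro γ; rw [mul_one]
      | mul a b _ _ ha hb => intro γ; rw [← mul_assoc, hb, ha]
      | inv a _ ha => intro γ; rw [← ha (γ * a⁻¹), inv_mul_cancel_right]
    ext c
    induction c using QuotientGroup.induction_on with
    | H γ =>
      by_contra hne
      let ψ : H ⧸ N.subgroupOf H → f.support := Quotient.lift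
        (fun h : H => (⟨((γ * (h : Γ) : Γ) : Γ ⧸ N), by
          rw [Finsupp.mem_support_iff, h2 h h.2]; exact hne⟩ : f.support)) (by
          intro a b hab
          apply Subtype.ext
          change ((γ * (a : Γ) : Γ) : Γ ⧸ N) = ((γ * (b : Γ) : Γ) : Γ ⧸ N)
          rw [QuotientGroup.eq]
          have h3 : a⁻¹ * b ∈ N.subgroupOf H := QuotientGroup.leftRel_apply.1 hab
          have h4 : (γ * (a : Γ))⁻¹ * (γ * (b : Γ)) = ((a⁻¹ * b : H) : Γ) := by
            push_cast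
            group
          rw [h4]
          exact h3)
      have hψ : Function.Injective ψ := by
        intro a b hab
        induction a using QuotientGroup.induction_on with
        | H a =>
          induction b using QuotientGroup.induction_on with
          | H b =>
            have h3 : ((γ * (a : Γ) : Γ) : Γ ⧸ N) = ((γ * (b : Γ) : Γ) : Γ ⧸ N) :=
              congrArg Subtype.val hab
            rw [QuotientGroup.eq] at h3 ⊢
            have h4 : (γ * (a : Γ))⁻¹ * (γ * (b : Γ)) = ((a⁻¹ * b : H) : Γ) := by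
              push_cast
              group
            rw [h4] at h3
            exact h3
      have hfin : Finite (H ⧸ N.subgroupOf H) := Finite.of_injective ψ hψ
      have h5 : Nat.card (H ⧸ N.subgroupOf H) ≠ 0 := Nat.card_pos.ne'
      exact h5 hidx
  obtain ⟨R, hR⟩ := LinearMap.exists_leftInverse_of_injective T hker
  let ε : ((Γ ⧸ N) →₀ ZMod p) →ₗ[ZMod p] ZMod p :=
    Finsupp.linearCombination (ZMod p) (fun _ => 1)
  refine ⟨fun γ s => if hs : s ∈ S then
    ε (R (Pi.single ⟨s, hs⟩ (Finsupp.single (γ : Γ ⧸ N) 1))) else 0, ?_, ?_⟩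
  · intro γ
    have h1 : R (T (Finsupp.single (γ : Γ ⧸ N) 1)) = Finsupp.single (γ : Γ ⧸ N) 1 := by
      have := LinearMap.congr_fun hR (Finsupp.single (γ : Γ ⧸ N) 1)
      simpa using this
    have h2 : T (Finsupp.single (γ : Γ ⧸ N) 1) =
        ∑ s : S, (Pi.single s (Finsupp.single (γ : Γ ⧸ N) (1 : ZMod p)) -
        Pi.single s (Finsupp.single ((γ * (s : Γ) : Γ) : Γ ⧸ N) 1)) := by
      ext1 s
      rw [hT, Finset.sum_apply, Finsupp.mapDomain_single]
      simp only [← Pi.single_sub]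
      rw [Finset.sum_pi_single]
      simp [hr]
    have h3 : ε (R (T (Finsupp.single (γ : Γ ⧸ N) 1))) = 1 := by
      rw [h1]
      simp [ε]
    rw [h2, map_sum, map_sum] at h3
    refine Eq.trans ?_ h3
    rw [← Finset.sum_coe_sort]
    apply Finset.sum_congr rfl
    intro s _
    rw [map_sub, map_sub]
    simp only [s.2, dif_pos]
  · intro n hn γ s
    have h1 : ((γ * n : Γ) : Γ ⧸ N) = (γ : Γ ⧸ N) := by
      rw [QuotientGroup.eq]
      have : (γ * n)⁻¹ * γ = n⁻¹ := by group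
      rw [this]
      exact N.inv_mem hn
    simp only [h1]

/-- the case of a finite quotient with an element of order `q` -/
theorem exists_y' (N : Subgroup Γ) (g : Γ) (hg : ∀ n ∈ N, g * n * g⁻¹ ∈ N)
    (hg' : ∀ n ∈ N, g⁻¹ * n * g ∈ N) (q : ℕ)
    (hk : ∀ k : ℤ, g ^ k ∈ N → (q : ℤ) ∣ k) :
    ∃ x : Γ → ZMod q, (∀ γ, x (γ * g) = x γ + 1) ∧ ∀ n ∈ N, ∀ γ, x (γ * n) = x γ := by
  have hconj : ∀ (k : ℤ), ∀ n ∈ N, g ^ k * n * (g ^ k)⁻¹ ∈ N := by
    intro k
    induction k using Int.induction_on with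
    | zero => intro n hn; simpa using hn
    | succ k ih =>
      intro n hn
      have h1 : g ^ ((k : ℤ) + 1) * n * (g ^ ((k : ℤ) + 1))⁻¹ =
          g ^ (k : ℤ) * (g * n * g⁻¹) * (g ^ (k : ℤ))⁻¹ := by
        rw [zpow_add, zpow_one]; group
      rw [h1]
      exact ih _ (hg n hn)
    | pred k ih =>
      intro n hn
      have h1 : g ^ (-(k : ℤ) - 1) * n * (g ^ (-(k : ℤ) - 1))⁻¹ =
          g ^ (-(k : ℤ)) * (g⁻¹ * n * g) * (g ^ (-(k : ℤ)))⁻¹ := by
        rw [zpow_sub, zpow_one]; group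
      rw [h1]
      exact ih _ (hg' n hn)
  let r : Setoid Γ :=
    { r := fun γ γ' => ∃ k : ℤ, ∃ n ∈ N, γ' = γ * g ^ k * n
      iseqv :=
        { refl := fun γ => ⟨0, 1, N.one_mem, by simp⟩
          symm := by
            rintro γ γ' ⟨k, n, hn, rfl⟩
            refine ⟨-k, _, hconj k _ (N.inv_mem hn), ?_⟩
            rw [zpow_neg]; group
          trans := by
            rintro γ γ' γ'' ⟨k, n, hn, rfl⟩ ⟨k', n', hn', rfl⟩
            refine ⟨k + k', _, N.mul_mem (hconj (-k') n hn) hn', ?_⟩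
            rw [zpow_add, zpow_neg]; group } }
  let rep : Γ → Γ := fun γ => (Quotient.mk r γ).out
  have hrep : ∀ γ, ∃ k : ℤ, ∃ n ∈ N, γ = rep γ * g ^ k * n := by
    intro γ
    have h1 : r (rep γ) γ := Quotient.exact (Quotient.out_eq (Quotient.mk r γ))
    exact h1
  have hrc : ∀ γ γ', r γ γ' → rep γ' = rep γ := by
    intro γ γ' h
    change (Quotient.mk r γ').out = (Quotient.mk r γ).out
    rw [Quotient.sound h]
  choose k hk' using hrep
  have huniq : ∀ γ (j : ℤ) (n : Γ), n ∈ N → γ = rep γ * g ^ j * n → (j : ZMod q) = k γ := by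
    intro γ j n hn hj
    obtain ⟨n', hn', hj'⟩ := hk' γ
    have h1 : g ^ (j - k γ) = (g ^ (k γ) * (n' * n⁻¹) * (g ^ (k γ))⁻¹) := by
      have h2 : rep γ * (g ^ j * n) = rep γ * (g ^ (k γ) * n') := by
        rw [← mul_assoc, ← mul_assoc, ← hj, ← hj']
      have h3 := mul_left_cancel h2
      have h4 : g ^ j = g ^ (k γ) * n' * n⁻¹ := by rw [← h3]; group
      rw [zpow_sub, h4]
      group
    have h2 : g ^ (j - k γ) ∈ N := by
      rw [h1]
      exact hconj _ _ (N.mul_mem hn' (N.inv_mem hn))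
    have h3 := hk _ h2
    rw [← sub_eq_zero, ← Int.cast_sub]
    exact (ZMod.intCast_zmod_eq_zero_iff_dvd _ q).2 h3
  refine ⟨fun γ => (k γ : ZMod q), ?_, ?_⟩
  · intro γ
    obtain ⟨n, hn, hj⟩ := hk' γ
    have h1 : rep (γ * g) = rep γ := hrc γ (γ * g) ⟨1, 1, N.one_mem, by simp⟩
    have h2 := huniq (γ * g) (k γ + 1) (g⁻¹ * n * g) (hg' n hn) (by
      rw [h1]
      nth_rewrite 1 [hj]
      rw [zpow_add, zpow_one]
      group)
    change (k (γ * g) : ZMod q) = (k γ : ZMod q) + 1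
    rw [← h2]
    push_cast
    rfl
  · intro m hm γ
    obtain ⟨n, hn, hj⟩ := hk' γ
    have h1 : rep (γ * m) = rep γ := hrc γ (γ * m) ⟨0, m, hm, by simp⟩
    exact (huniq (γ * m) (k γ) (n * m) (N.mul_mem hn hm) (by
      rw [h1, ← mul_assoc, ← hj])).symm

end Pool.Agent.Helper51.Width
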