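import Pool.Agent.Helper51.Width.Space

/-!
# Non-divisibility
-/

set_option autoImplicit false

namespace Pool.Agent.Helper51.Width

variable {Γ : Type} [Group Γ] (T : Set ℕ) (S R : ℕ → Finset Γ) (Z : Set Γ)

/-- the group of differences (the coordinates in `Z` are fixed) -/
def VV : AddSubgroup (Om Γ T) where
  carrier := {v | (∀ f γ, v.1 f (γ * f) = v.1 f γ) ∧ (∀ f ∈ Z, ∀ γ, v.1 f γ = 0) ∧
    (∀ (p : T) γ, ∑ s ∈ S p, (v.2 p γ s - v.2 p (γ * s) s) = 0) ∧
    ∀ (p : T), ∀ n ∈ R p, ∀ γ s, v.2 p (γ * n) s = v.2 p γ s}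
  zero_mem' := by
    refine ⟨fun f γ => rfl, fun f _ γ => rfl, fun p γ => ?_, fun p n hn γ s => rfl⟩
    simp
  add_mem' := by
    intro v w hv hw
    refine ⟨fun f γ => ?_, fun f hf γ => ?_, fun p γ => ?_, fun p n hn γ s => ?_⟩
    · change v.1 f (γ * f) + w.1 f (γ * f) = v.1 f γ + w.1 f γ
      rw [hv.1, hw.1]
    · change v.1 f γ + w.1 f γ = 0
      rw [hv.2.1 f hf, hw.2.1 f hf, add_zero]
    · have h1 := hv.2.2.1 p γ
      have h2 := hw.2.2.1 p γ
      calc _ = ∑ s ∈ S p, (v.2 p γ s - v.2 p (γ * s) s) +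
            ∑ s ∈ S p, (w.2 p γ s - w.2 p (γ * s) s) := by
            rw [← Finset.sum_add_distrib]
            apply Finset.sum_congr rfl
            intro s _
            change v.2 p γ s + w.2 p γ s - (v.2 p (γ * s) s + w.2 p (γ * s) s) = _
            ring
        _ = 0 := by rw [h1, h2, add_zero]
    · change v.2 p (γ * n) s + w.2 p (γ * n) s = v.2 p γ s + w.2 p γ s
      rw [hv.2.2.2 p n hn, hw.2.2.2 p n hn]
  neg_mem' := by
    intro v hv
    refine ⟨fun f γ => ?_, fun f hf γ => ?_, fun p γ => ?_, fun p n hn γ s => ?_⟩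
    · change -v.1 f (γ * f) = -v.1 f γ
      rw [hv.1]
    · change -v.1 f γ = 0
      rw [hv.2.1 f hf, neg_zero]
    · have h1 := hv.2.2.1 p γ
      calc _ = -∑ s ∈ S p, (v.2 p γ s - v.2 p (γ * s) s) := by
            rw [← Finset.sum_neg_distrib]
            apply Finset.sum_congr rfl
            intro s _
            change -v.2 p γ s - -v.2 p (γ * s) s = _
            ring
        _ = 0 := by rw [h1, neg_zero]
    · change -v.2 p (γ * n) s = -v.2 p γ s
      rw [hv.2.2.2 p n hn]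

theorem sh_mem_VV {v : Om Γ T} (g : Γ) (hv : v ∈ VV T S R Z) : sh g v ∈ VV T S R Z := by
  refine ⟨fun f γ => ?_, fun f hf γ => ?_, fun p γ => ?_, fun p n hn γ s => ?_⟩
  · have := hv.1 f (g⁻¹ * γ)
    rwa [mul_assoc] at this
  · exact hv.2.1 f hf _
  · have := hv.2.2.1 p (g⁻¹ * γ)
    simpa only [sh, mul_assoc] using this
  · have := hv.2.2.2 p n hn (g⁻¹ * γ) s
    simpa only [sh, mul_assoc] using this

/-- shift as an automorphism -/
def tau (g : Γ) : VV T S R Z ≃+ VV T S R Z where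
  toFun v := ⟨sh g v.1, sh_mem_VV T S R Z g v.2⟩
  invFun v := ⟨sh g⁻¹ v.1, sh_mem_VV T S R Z g⁻¹ v.2⟩
  left_inv v := by
    apply Subtype.ext
    change sh g⁻¹ (sh g v.1) = v.1
    rw [sh_sh, inv_mul_cancel, sh_one]
  right_inv v := by
    apply Subtype.ext
    change sh g (sh g⁻¹ v.1) = v.1
    rw [sh_sh, mul_inv_cancel, sh_one]
  map_add' v w := rfl

variable {T S R Z}

theorem isClosed_VV : IsClosed (VV T S R Z : Set (Om Γ T)) := by
  have : (VV T S R Z : Set (Om Γ T)) =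
      (⋂ f : Γ, ⋂ γ : Γ, {v : Om Γ T | v.1 f (γ * f) = v.1 f γ}) ∩
      ((⋂ f ∈ Z, ⋂ γ : Γ, {v : Om Γ T | v.1 f γ = 0}) ∩
      ((⋂ p : T, ⋂ γ : Γ, {v : Om Γ T | ∑ s ∈ S p, (v.2 p γ s - v.2 p (γ * s) s) = 0}) ∩
      (⋂ p : T, ⋂ n ∈ R p, ⋂ γ : Γ, ⋂ s : Γ,
        {ω : Om Γ T | ω.2 p (γ * n) s = ω.2 p γ s}))) := by
    ext ω
    simp [VV]
  rw [this]
  refine (isClosed_iInter fun f => isClosed_iInter fun γ => isClosed_eq ?_ ?_).inter
    ((isClosed_iInter fun f => isClosed_iInter fun _ => isClosed_iInter fun γ =>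
      isClosed_eq ?_ continuous_const).inter
    ((isClosed_iInter fun p => isClosed_iInter fun γ => isClosed_eq ?_ continuous_const).inter
    (isClosed_iInter fun p => isClosed_iInter fun n => isClosed_iInter fun _ =>
      isClosed_iInter fun γ => isClosed_iInter fun s => isClosed_eq ?_ ?_)))
  all_goals fun_prop

variable {q : ℕ}

theorem good_ker [Fact q.Prime] {V : Type*} [AddCommGroup V] {m : ℕ} [NeZero m]
    (e : V →+ ZMod m) (h : ¬ q ∣ m) : ((e.ker.index : ℕ) : ZMod q) ≠ 0 := by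
  rw [AddSubgroup.index_ker, Ne, ZMod.natCast_eq_zero_iff]
  intro hd
  apply h
  have h1 : Nat.card e.range ∣ Nat.card (ZMod m) := AddSubgroup.card_addSubgroup_dvd_card _
  rw [Nat.card_zmod] at h1
  exact hd.trans h1

theorem per_exists [Fact q.Prime] (hT : ∀ p ∈ T, p.Prime) (hq : q ∉ T)
    (hZ : ∀ f : Γ, ell f = q → f ∈ Z)
    (ψ : VV (Γ := Γ) T S R Z → ZMod q) (hψ : Continuous ψ) :
    ∃ U : AddSubgroup (VV (Γ := Γ) T S R Z), ((U.index : ℕ) : ZMod q) ≠ 0 ∧ Per U ψ := by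
  have hqp : q.Prime := Fact.out
  have : ∀ p : T, NeZero (p : ℕ) := fun p => ⟨(hT p p.2).ne_zero⟩
  have := compact_Om (Γ := Γ) T (fun p hp => (hT p hp).ne_zero)
  have hcomp : CompactSpace (VV (Γ := Γ) T S R Z) :=
    isCompact_iff_compactSpace.mp (isClosed_VV (T := T) (S := S) (R := R) (Z := Z)).isCompact
  let J := (Γ × Γ) ⊕ (T × Γ × Γ)
  let U : J → AddSubgroup (VV (Γ := Γ) T S R Z) := fun j => match j with
    | Sum.inl (f, γ) => AddMonoidHom.ker
        (AddMonoidHom.mk' (fun v : VV (Γ := Γ) T S R Z => v.1.1 f γ) (fun _ _ => rfl))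
    | Sum.inr (p, γ, s) => AddMonoidHom.ker
        (AddMonoidHom.mk' (fun v : VV (Γ := Γ) T S R Z => v.1.2 p γ s) (fun _ _ => rfl))
  have hU : ∀ j, (((U j).index : ℕ) : ZMod q) ≠ 0 := by
    rintro (⟨f, γ⟩ | ⟨p, γ, s⟩)
    · by_cases hf : ell f = q
      · have : U (Sum.inl (f, γ)) = ⊤ := by
          ext v
          simp only [AddSubgroup.mem_top, iff_true]
          change v.1.1 f γ = 0
          exact v.2.2.1 f (hZ f hf) γ
        rw [this]
        simp
      · apply good_ker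
        intro hd
        by_cases h1 : orderOf f = 1
        · have h2 : ell f = 1 := by rw [ell, h1, Nat.minFac_one]
          rw [h2] at hd
          exact hqp.one_lt.ne' (Nat.dvd_one.1 hd)
        · exact hf ((Nat.prime_dvd_prime_iff_eq hqp (Nat.minFac_prime h1)).1 hd).symm
    · apply good_ker
      intro hd
      have := (Nat.prime_dvd_prime_iff_eq hqp (hT p p.2)).1 hd
      exact hq (this ▸ p.2)
  have hopen : ∀ j, IsOpen {v : VV (Γ := Γ) T S R Z × VV (Γ := Γ) T S R Z |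
      v.1 - v.2 ∉ U j} := by
    rintro (⟨f, γ⟩ | ⟨p, γ, s⟩)
    · have h1 : Continuous (fun v : VV (Γ := Γ) T S R Z × VV (Γ := Γ) T S R Z =>
          v.1.1.1 f γ - v.2.1.1 f γ) := by fun_prop
      exact (isOpen_discrete ({0}ᶜ : Set (ZMod (ell f)))).preimage h1
    · have h1 : Continuous (fun v : VV (Γ := Γ) T S R Z × VV (Γ := Γ) T S R Z =>
          v.1.1.2 p γ s - v.2.1.2 p γ s) := by fun_prop
      exact (isOpen_discrete ({0}ᶜ : Set (ZMod (p : ℕ)))).preimage h1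
  have hK : IsCompact {v : VV (Γ := Γ) T S R Z × VV (Γ := Γ) T S R Z | ψ v.1 ≠ ψ v.2} := by
    apply IsClosed.isCompact
    have h1 : Continuous (fun v : VV (Γ := Γ) T S R Z × VV (Γ := Γ) T S R Z =>
        (ψ v.1, ψ v.2)) :=
      (hψ.comp continuous_fst).prodMk (hψ.comp continuous_snd)
    exact (isClosed_discrete {z : ZMod q × ZMod q | z.1 ≠ z.2}).preimage h1
  obtain ⟨t, ht⟩ := hK.elim_finite_subcover _ hopen (by
    rintro ⟨v, w⟩ hvw
    rw [Set.mem_iUnion]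
    by_contra hc
    push Not at hc
    apply hvw
    have : v = w := by
      apply Subtype.ext
      apply Prod.ext
      · funext f γ
        have h1 := hc (Sum.inl (f, γ))
        simp only [Set.mem_ofPred_eq, not_not] at h1
        have h2 : v.1.1 f γ - w.1.1 f γ = 0 := h1
        exact sub_eq_zero.1 h2
      · funext p γ s
        have h1 := hc (Sum.inr (p, γ, s))
        simp only [Set.mem_ofPred_eq, not_not] at h1
        have h2 : v.1.2 p γ s - w.1.2 p γ s = 0 := h1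
        exact sub_eq_zero.1 h2
    change ψ v = ψ w
    rw [this])
  refine ⟨⨅ j ∈ t, U j, good_iInf t U hU, ?_⟩
  intro v w hvw
  by_contra hne
  have h1 := ht (show (v, w) ∈ {v : VV (Γ := Γ) T S R Z × VV (Γ := Γ) T S R Z |
    ψ v.1 ≠ ψ v.2} from hne)
  rw [Set.mem_iUnion₂] at h1
  obtain ⟨j, hj, hj'⟩ := h1
  apply hj'
  have h2 : (⨅ j ∈ t, U j) ≤ U j := iInf₂_le j hj
  exact h2 hvw

open Classical in
/-- reset the coordinates in `Z` to those of `ω` -/
noncomputable def rs (Z : Set Γ) (ω z : Om Γ T) : Om Γ T :=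
  ⟨fun f => if f ∈ Z then ω.1 f else z.1 f, z.2⟩

theorem rs_mem {ω z : Om Γ T} (hω : ω ∈ A T S R) (hz : z ∈ A T S R) : rs Z ω z ∈ A T S R := by
  refine ⟨fun f γ => ?_, hz.2.1, hz.2.2⟩
  by_cases hf : f ∈ Z
  · simp only [rs, hf, if_true]
    exact hω.1 f γ
  · simp only [rs, hf, if_false]
    exact hz.1 f γ

/-- The key non-solvability statement. -/
theorem not_div_core [Fact q.Prime] (hT : ∀ p ∈ T, p.Prime) (hq : q ∉ T)
    (hZ : ∀ f : Γ, ell f = q → f ∈ Z) {ω : Om Γ T} (hω : ω ∈ A T S R) (c₀ : Cantor)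
    (φ : Γ → X (Γ := Γ) T S R → ZMod q) (hφ : ∀ s, Continuous (φ s))
    (h1 : ∀ x, ∑ s ∈ S q, (φ s x - φ s (rho T S R s⁻¹ x)) = 1)
    (hm : ∀ s ∈ S q, ∀ (z : Om Γ T) (hz : z ∈ A T S R), (∀ f ∈ Z, z.1 f = ω.1 f) →
      φ s (rho T S R s⁻¹ (⟨z, hz⟩, c₀)) =
        φ s (⟨rs Z ω (sh s⁻¹ z), rs_mem hω (sh_mem s⁻¹ hz)⟩, c₀)) : False := by
  classical
  have hadd : ∀ v : VV (Γ := Γ) T S R Z, ω + v.1 ∈ A T S R := by
    intro v
    refine ⟨fun f γ => ?_, fun p γ => ?_, fun p n hn γ s => ?_⟩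
    · change ω.1 f (γ * f) + v.1.1 f (γ * f) = ω.1 f γ + v.1.1 f γ + 1
      rw [hω.1, v.2.1]
      ring
    · have h1 := hω.2.1 p γ
      have h2 := v.2.2.2.1 p γ
      calc _ = ∑ s ∈ S p, (ω.2 p γ s - ω.2 p (γ * s) s) +
            ∑ s ∈ S p, (v.1.2 p γ s - v.1.2 p (γ * s) s) := by
            rw [← Finset.sum_add_distrib]
            apply Finset.sum_congr rfl
            intro s _
            change ω.2 p γ s + v.1.2 p γ s - (ω.2 p (γ * s) s + v.1.2 p (γ * s) s) = _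
            ring
        _ = 1 := by rw [h1, h2, add_zero]
    · change ω.2 p (γ * n) s + v.1.2 p (γ * n) s = ω.2 p γ s + v.1.2 p γ s
      rw [hω.2.2 p n hn, v.2.2.2.2 p n hn]
  have hdiff : ∀ z ∈ A T S R, (∀ f ∈ Z, z.1 f = ω.1 f) → z - ω ∈ VV T S R Z := by
    intro z hz hzZ
    refine ⟨fun f γ => ?_, fun f hf γ => ?_, fun p γ => ?_, fun p n hn γ s => ?_⟩
    · change z.1 f (γ * f) - ω.1 f (γ * f) = z.1 f γ - ω.1 f γ
      rw [hω.1, hz.1]
      ring
    · change z.1 f γ - ω.1 f γ = 0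
      rw [hzZ f hf, sub_self]
    · have h1 := hω.2.1 p γ
      have h2 := hz.2.1 p γ
      calc _ = ∑ t ∈ S p, (z.2 p γ t - z.2 p (γ * t) t) -
            ∑ t ∈ S p, (ω.2 p γ t - ω.2 p (γ * t) t) := by
            rw [← Finset.sum_sub_distrib]
            apply Finset.sum_congr rfl
            intro t _
            change z.2 p γ t - ω.2 p γ t - (z.2 p (γ * t) t - ω.2 p (γ * t) t) = _
            ring
        _ = 0 := by rw [h1, h2, sub_self]
    · change z.2 p (γ * n) s - ω.2 p (γ * n) s = z.2 p γ s - ω.2 p γ s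
      rw [hω.2.2 p n hn, hz.2.2 p n hn]
  have hrsZ : ∀ z : Om Γ T, ∀ f ∈ Z, (rs Z ω z).1 f = ω.1 f := by
    intro z f hf
    simp only [rs, hf, if_true]
  let c : Γ → VV (Γ := Γ) T S R Z := fun s =>
    ⟨rs Z ω (sh s⁻¹ ω) - ω, hdiff _ (rs_mem hω (sh_mem s⁻¹ hω)) (hrsZ _)⟩
  let σ : Γ → VV (Γ := Γ) T S R Z ≃ VV (Γ := Γ) T S R Z := fun s =>
    (tau T S R Z s⁻¹).toEquiv.trans (Equiv.addLeft (c s))
  let ι : VV (Γ := Γ) T S R Z → X (Γ := Γ) T S R := fun v => (⟨ω + v.1, hadd v⟩, c₀)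
  have hι : Continuous ι := by
    refine Continuous.prodMk (Continuous.subtype_mk ?_ _) continuous_const
    exact continuous_const.add continuous_subtype_val
  apply no_solution (S q) (fun s v => φ s (ι v)) σ (fun s => tau T S R Z s⁻¹)
  · intro s v w
    change c s + tau T S R Z s⁻¹ v - (c s + tau T S R Z s⁻¹ w) = _
    rw [map_sub]
    abel
  · intro s
    exact per_exists hT hq hZ _ ((hφ s).comp hι)
  · intro v
    rw [← h1 (ι v)]
    apply Finset.sum_congr rfl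
    intro s hs
    have hvZ : ∀ f ∈ Z, (ω + v.1).1 f = ω.1 f := by
      intro f hf
      funext γ
      change ω.1 f γ + v.1.1 f γ = ω.1 f γ
      rw [v.2.2.1 f hf, add_zero]
    have h2 := hm s hs (ω + v.1) (hadd v) hvZ
    have h3 : φ s (ι (σ s v)) = φ s (⟨rs Z ω (sh s⁻¹ (ω + v.1)),
        rs_mem hω (sh_mem s⁻¹ (hadd v))⟩, c₀) := by
      apply congrArg (φ s)
      refine Prod.ext (Subtype.ext ?_) rfl
      change ω + ((rs Z ω (sh s⁻¹ ω) - ω) + sh s⁻¹ v.1) = rs Z ω (sh s⁻¹ (ω + v.1))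
      apply Prod.ext
      · funext f γ
        change ω.1 f γ + (((rs Z ω (sh s⁻¹ ω)).1 f γ - ω.1 f γ) + (sh s⁻¹ v.1).1 f γ) =
          (rs Z ω (sh s⁻¹ (ω + v.1))).1 f γ
        by_cases hf : f ∈ Z
        · rw [hrsZ _ f hf, hrsZ _ f hf]
          have h4 : (sh s⁻¹ v.1).1 f γ = 0 := v.2.2.1 f hf _
          rw [h4]
          ring
        · simp only [rs, hf, if_false]
          change _ = (sh s⁻¹ ω).1 f γ + (sh s⁻¹ v.1).1 f γ
          ring
      · funext p γ t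
        change ω.2 p γ t + (((sh s⁻¹ ω).2 p γ t - ω.2 p γ t) + (sh s⁻¹ v.1).2 p γ t) =
          (sh s⁻¹ ω).2 p γ t + (sh s⁻¹ v.1).2 p γ t
        ring
    rw [h3, ← h2]

/-- first case: `R q` plays no role -/
theorem not_div_a [Fact q.Prime] (hT : ∀ p ∈ T, p.Prime) (hq : q ∉ T) {ω : Om Γ T}
    (hω : ω ∈ A T S R)
    (hω' : ∀ f, ell f = q → ∀ s ∈ S q, ∀ γ, ω.1 f (s * γ) = ω.1 f γ) :
    ¬ Div (fun g => rho T S R g) (S q) (R q) q := by
  rintro ⟨φ, hφ, -, h1⟩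
  apply not_div_core (Z := {f | ell f = q}) hT hq (fun f hf => hf) hω (fun _ => true) φ hφ h1
  intro s hs z hz hzZ
  rw [rho_apply]
  congr 2
  apply Subtype.ext
  change sh s⁻¹ z = rs _ ω (sh s⁻¹ z)
  apply Prod.ext
  · funext f γ
    by_cases hf : ell f = q
    · have h2 : f ∈ {f : Γ | ell f = q} := hf
      simp only [rs, h2, if_true]
      change z.1 f (s⁻¹⁻¹ * γ) = ω.1 f γ
      rw [hzZ f hf, inv_inv, hω' f hf s hs]
    · have h2 : f ∉ {f : Γ | ell f = q} := hf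
      simp only [rs, h2, if_false]
  · rfl

/-- a continuous function depends on finitely many of the coordinates of the first kind -/
theorem window [NeZero q] (hT : ∀ p ∈ T, p.Prime) (c₀ : Cantor)
    (ψ : X (Γ := Γ) T S R → ZMod q) (hψ : Continuous ψ) :
    ∃ t : Finset (Γ × Γ), ∀ x x' : A (Γ := Γ) T S R, x.1.2 = x'.1.2 →
      (∀ j ∈ t, x.1.1 j.1 j.2 = x'.1.1 j.1 j.2) → ψ (x, c₀) = ψ (x', c₀) := by
  have : ∀ p : T, NeZero (p : ℕ) := fun p => ⟨(hT p p.2).ne_zero⟩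
  have hcomp := compact_A (Γ := Γ) T S R (fun p hp => (hT p hp).ne_zero)
  have hK : IsCompact {v : A (Γ := Γ) T S R × A (Γ := Γ) T S R |
      v.1.1.2 = v.2.1.2 ∧ ψ (v.1, c₀) ≠ ψ (v.2, c₀)} := by
    apply IsClosed.isCompact
    apply IsClosed.inter
    · apply isClosed_eq <;> fun_prop
    · have h1 : Continuous (fun v : A (Γ := Γ) T S R × A (Γ := Γ) T S R =>
          (ψ (v.1, c₀), ψ (v.2, c₀))) :=
        (hψ.comp (by fun_prop)).prodMk (hψ.comp (by fun_prop))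
      exact (isClosed_discrete {z : ZMod q × ZMod q | z.1 ≠ z.2}).preimage h1
  have hopen : ∀ j : Γ × Γ, IsOpen {v : A (Γ := Γ) T S R × A (Γ := Γ) T S R |
      v.1.1.1 j.1 j.2 ≠ v.2.1.1 j.1 j.2} := by
    intro j
    have h1 : Continuous (fun v : A (Γ := Γ) T S R × A (Γ := Γ) T S R =>
        (v.1.1.1 j.1 j.2, v.2.1.1 j.1 j.2)) := by fun_prop
    exact (isOpen_discrete {z : ZMod (ell j.1) × ZMod (ell j.1) | z.1 ≠ z.2}).preimage h1
  obtain ⟨t, ht⟩ := hK.elim_finite_subcover _ hopen (by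
    rintro ⟨v, w⟩ ⟨h2, hvw⟩
    rw [Set.mem_iUnion]
    by_contra hc
    push Not at hc
    apply hvw
    have : v = w := by
      apply Subtype.ext
      apply Prod.ext
      · funext f γ
        have h1 := hc (f, γ)
        simpa only [Set.mem_ofPred_eq, not_not] using h1
      · exact h2
    rw [this])
  refine ⟨t, fun x x' h2 h => ?_⟩
  by_contra hne
  have h1 := ht (show (x, x') ∈ {v : A (Γ := Γ) T S R × A (Γ := Γ) T S R |
      v.1.1.2 = v.2.1.2 ∧ ψ (v.1, c₀) ≠ ψ (v.2, c₀)} from ⟨h2, hne⟩)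
  rw [Set.mem_iUnion₂] at h1
  obtain ⟨j, hj, hj'⟩ := h1
  exact hj' (h j hj)

/-- In a torsion group, functions invariant under an infinite subgroup do not depend on the
coordinates of the first kind. -/
theorem indep [NeZero q] (hT : ∀ p ∈ T, p.Prime) (htor : ∀ f : Γ, IsOfFinOrder f) (c₀ : Cantor)
    (ψ : X (Γ := Γ) T S R → ZMod q) (hψ : Continuous ψ) (N : Subgroup Γ) (hN : Infinite N)
    (hinv : ∀ n ∈ N, ∀ x, ψ (rho T S R n⁻¹ x) = ψ x) (x x' : A (Γ := Γ) T S R)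
    (h2 : x.1.2 = x'.1.2) : ψ (x, c₀) = ψ (x', c₀) := by
  classical
  obtain ⟨t, ht⟩ := window hT c₀ ψ hψ
  have hbad : (⋃ j ∈ t, ⋃ j' ∈ t, (fun z => j'.2 * z * j.2⁻¹) ''
      ((Subgroup.zpowers j'.1 : Subgroup Γ) : Set Γ)).Finite := by
    apply t.finite_toSet.biUnion
    intro j _
    apply t.finite_toSet.biUnion
    intro j' _
    exact (htor j'.1).finite_zpowers.image _
  have hNinf : (N : Set Γ).Infinite := Set.infinite_coe_iff.1 hN
  obtain ⟨n, hn, hnbad⟩ := (hNinf.sdiff hbad).nonempty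
  let P : Γ → Γ → Prop := fun f γ => ∃ γ', (f, γ') ∈ t ∧ γ'⁻¹ * γ ∈ Subgroup.zpowers f
  have hPf : ∀ f γ, P f (γ * f) ↔ P f γ := by
    intro f γ
    constructor
    · rintro ⟨γ', h, h'⟩
      refine ⟨γ', h, ?_⟩
      have := (Subgroup.zpowers f).mul_mem h' ((Subgroup.zpowers f).inv_mem
        (Subgroup.mem_zpowers f))
      rwa [← mul_assoc, mul_inv_cancel_right] at this
    · rintro ⟨γ', h, h'⟩
      refine ⟨γ', h, ?_⟩
      have := (Subgroup.zpowers f).mul_mem h' (Subgroup.mem_zpowers f)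
      rwa [mul_assoc] at this
  let y : Om Γ T := ⟨fun f γ => if P f γ then x'.1.1 f γ else x.1.1 f γ, x.1.2⟩
  have hy : y ∈ A T S R := by
    refine ⟨fun f γ => ?_, x.2.2.1, x.2.2.2⟩
    by_cases hP : P f γ
    · have hP' := (hPf f γ).2 hP
      simp only [y, hP, hP', if_true]
      exact x'.2.1 f γ
    · have hP' : ¬ P f (γ * f) := fun h => hP ((hPf f γ).1 h)
      simp only [y, hP, hP', if_false]
      exact x.2.1 f γ
  have e1 : ψ (⟨y, hy⟩, c₀) = ψ (x', c₀) := by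
    refine ht ⟨y, hy⟩ x' h2 ?_
    rintro ⟨f, γ⟩ hj
    have hP : P f γ := ⟨γ, hj, by simp⟩
    simp only [y, hP, if_true]
  have e2 : ψ (rho T S R n⁻¹ (⟨y, hy⟩, c₀)) = ψ (rho T S R n⁻¹ (x, c₀)) := by
    rw [rho_apply, rho_apply]
    refine ht ⟨sh n⁻¹ y, sh_mem n⁻¹ hy⟩ ⟨sh n⁻¹ x.1, sh_mem n⁻¹ x.2⟩ rfl ?_
    rintro ⟨f, γ⟩ hj
    change y.1 f (n⁻¹⁻¹ * γ) = x.1.1 f (n⁻¹⁻¹ * γ)
    rw [inv_inv]
    have hP : ¬ P f (n * γ) := by
      rintro ⟨γ', h, h'⟩
      apply hnbad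
      simp only [Set.mem_iUnion]
      refine ⟨(f, γ), hj, (f, γ'), h, _, h', ?_⟩
      simp only
      group
    simp only [y, hP, if_false]
  rw [hinv n hn, hinv n hn] at e2
  rw [← e1, e2]

/-- second case -/
theorem not_div_b [Fact q.Prime] (hT : ∀ p ∈ T, p.Prime) (hq : q ∉ T)
    (htor : ∀ f : Γ, IsOfFinOrder f) (hN : Infinite (Subgroup.closure (R q : Set Γ)))
    {ω : Om Γ T} (hω : ω ∈ A T S R) :
    ¬ Div (fun g => rho T S R g) (S q) (R q) q := by
  rintro ⟨φ, hφ, h0, h1⟩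
  have hqp : q.Prime := Fact.out
  have : NeZero q := ⟨hqp.ne_zero⟩
  have hinv : ∀ s, ∀ n ∈ Subgroup.closure (R q : Set Γ), ∀ x,
      φ s (rho T S R n⁻¹ x) = φ s x := by
    intro s n hn
    induction hn using Subgroup.closure_induction with
    | mem n hn => exact h0 s n hn
    | one =>
      intro x
      rw [inv_one, map_one]
      rfl
    | mul a b _ _ ha hb =>
      intro x
      rw [mul_inv_rev, map_mul]
      change φ s (rho T S R b⁻¹ (rho T S R a⁻¹ x)) = φ s x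
      rw [hb, ha]
    | inv a _ ha =>
      intro x
      rw [← ha (rho T S R a⁻¹⁻¹ x)]
      change φ s ((rho T S R a⁻¹ * rho T S R a⁻¹⁻¹) x) = φ s x
      rw [← map_mul, mul_inv_cancel, map_one]
      rfl
  apply not_div_core (Z := Set.univ) hT hq (fun f _ => Set.mem_univ f) hω (fun _ => true) φ hφ h1
  intro s hs z hz _
  rw [rho_apply]
  exact indep hT htor _ (φ s) (hφ s) _ hN (hinv s) _ _ rfl

end Pool.Agent.Helper51.Width
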