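import Pool.Agent.Helper51.Width.Defs

/-!
# Width: upper bound, and lower bound from a family of pairwise incomparable flows.
The divisibility invariant and its monotonicity.
-/

set_option autoImplicit false

namespace Pool.Agent.Helper51.Width

open Cardinal

variable {Γ : Type} [Group Γ]

theorem flow_one (a : Flow Γ) (x : Cantor) : a 1 x = x := by rw [map_one]; rfl

theorem flow_mul (a : Flow Γ) (g h : Γ) (x : Cantor) : a g (a h x) = a (g * h) x := by
  rw [map_mul]; rfl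

/-- a code of the patterns of a flow -/
def code (a : Flow Γ) : Set (Finset Γ × (Σ k : ℕ, Finset (Finset (Fin k × Γ)))) :=
  {w | {σ : Set (Fin w.2.1 × Γ) | ∃ τ ∈ w.2.2, (τ : Set (Fin w.2.1 × Γ)) = σ} ∈ pats a w.1 w.2.1}

theorem pat_finite (a : Flow Γ) (W : Finset Γ) {k : ℕ} (C : Fin k → Set Cantor) :
    ∃ F : Finset (Finset (Fin k × Γ)),
      {σ : Set (Fin k × Γ) | ∃ τ ∈ F, (τ : Set (Fin k × Γ)) = σ} = pat a W C := by
  classical
  refine ⟨((Finset.univ ×ˢ W).powerset).filter (fun τ => (τ : Set (Fin k × Γ)) ∈ pat a W C), ?_⟩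
  ext σ
  simp only [Set.mem_ofPred_eq, Finset.mem_filter, Finset.mem_powerset]
  constructor
  · rintro ⟨τ, ⟨-, hτ⟩, rfl⟩
    exact hτ
  · intro hσ
    have hsub : σ ⊆ ((Finset.univ ×ˢ W : Finset (Fin k × Γ)) : Set (Fin k × Γ)) := by
      intro p hp
      simp only [Finset.coe_product, Finset.coe_univ, Set.mem_prod, Set.mem_univ, true_and]
      exact hσ.1 p hp
    have hfin : σ.Finite := (Finset.finite_toSet _).subset hsub
    refine ⟨hfin.toFinset, ⟨?_, ?_⟩, ?_⟩
    · intro p hp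
      rw [Set.Finite.mem_toFinset] at hp
      exact_mod_cast hsub hp
    · rw [Set.Finite.coe_toFinset]
      exact hσ
    · rw [Set.Finite.coe_toFinset]

theorem wcontains_of_code {a b : Flow Γ} (h : code b = code a) : WContains a b := by
  intro W k P hP
  obtain ⟨C, hC, hcov, rfl⟩ := hP
  obtain ⟨F, hF⟩ := pat_finite b W C
  have h1 : (W, (⟨k, F⟩ : Σ k : ℕ, Finset (Finset (Fin k × Γ)))) ∈ code b := by
    change {σ : Set (Fin k × Γ) | ∃ τ ∈ F, (τ : Set (Fin k × Γ)) = σ} ∈ pats b W k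
    rw [hF]
    exact ⟨C, hC, hcov, rfl⟩
  rw [h] at h1
  change {σ : Set (Fin k × Γ) | ∃ τ ∈ F, (τ : Set (Fin k × Γ)) = σ} ∈ pats a W k at h1
  rwa [hF] at h1

theorem mk_freeClass_le [Countable Γ] : #(FreeClass Γ) ≤ 𝔠 := by
  have hinj : Function.Injective (fun c : FreeClass Γ =>
      code (ofAntisymmetrization (· ≤ ·) c).1) := by
    intro c c' h
    have h1 : ofAntisymmetrization (· ≤ ·) c ≤ ofAntisymmetrization (· ≤ ·) c' :=
      wcontains_of_code h
    have h2 : ofAntisymmetrization (· ≤ ·) c' ≤ ofAntisymmetrization (· ≤ ·) c :=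
      wcontains_of_code h.symm
    rw [← toAntisymmetrization_ofAntisymmetrization (· ≤ ·) c,
      ← toAntisymmetrization_ofAntisymmetrization (· ≤ ·) c']
    exact Quotient.sound ⟨h1, h2⟩
  calc #(FreeClass Γ) ≤ #(Set (Finset Γ × (Σ k : ℕ, Finset (Finset (Fin k × Γ))))) :=
        Cardinal.mk_le_of_injective hinj
    _ = 2 ^ #(Finset Γ × (Σ k : ℕ, Finset (Finset (Fin k × Γ)))) := Cardinal.mk_set
    _ ≤ 2 ^ ℵ₀ := Cardinal.power_le_power_left two_ne_zero Cardinal.mk_le_aleph0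
    _ = 𝔠 := Cardinal.two_power_aleph0

theorem width_le [Countable Γ] : width Γ ≤ 𝔠 := by
  apply ciSup_le'
  intro s
  exact (Cardinal.mk_set_le s.1).trans mk_freeClass_le

theorem width_ge (F : (ℕ → Bool) → FreeFlow Γ) (hF : ∀ r r', F r ≤ F r' → r = r') :
    𝔠 ≤ width Γ := by
  have hinj : Function.Injective (fun r => toAntisymmetrization (· ≤ ·) (F r)) := by
    intro r r' h
    exact hF r r' (Quotient.exact h).1
  have hanti : IsAntichain (· ≤ ·) (Set.range (fun r => toAntisymmetrization (· ≤ ·) (F r))) := by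
    rintro _ ⟨r, rfl⟩ _ ⟨r', rfl⟩ hne hle
    exact hne (by rw [hF r r' (toAntisymmetrization_le_toAntisymmetrization_iff.1 hle)])
  have h1 := le_ciSup (f := fun s : {s : Set (FreeClass Γ) // IsAntichain (· ≤ ·) s} => #s.1)
    Cardinal.bddAbove_of_small ⟨_, hanti⟩
  have h2 : #(Set.range (fun r => toAntisymmetrization (· ≤ ·) (F r))) = 𝔠 := by
    rw [Cardinal.mk_range_eq _ hinj]
    simp
  rw [← h2]
  exact h1

/-! ### The invariant -/

/-- the divisibility invariant: `1` is a sum of `φ s - s (φ s)`, `s ∈ S`, with continuous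
`φ s : X → ℤ / q` invariant under `R` -/
def Div {X : Type*} [TopologicalSpace X] (ρ : Γ → X → X) (S R : Finset Γ) (q : ℕ) : Prop :=
  ∃ φ : Γ → X → ZMod q, (∀ s, Continuous (φ s)) ∧
    (∀ s, ∀ n ∈ R, ∀ x, φ s (ρ n⁻¹ x) = φ s x) ∧
    ∀ x, ∑ s ∈ S, (φ s x - φ s (ρ s⁻¹ x)) = 1

theorem div_of_map {X Y : Type*} [TopologicalSpace X] [TopologicalSpace Y] {ρ : Γ → X → X}
    {ρ' : Γ → Y → Y} {S R : Finset Γ} {q : ℕ} (f : X → Y) (hf : Continuous f)
    (he : ∀ g x, f (ρ g x) = ρ' g (f x)) (h : Div ρ' S R q) : Div ρ S R q := by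
  obtain ⟨φ, hφ, h0, h1⟩ := h
  exact ⟨fun s x => φ s (f x), fun s => (hφ s).comp hf,
    fun s n hn x => by simpa [he] using h0 s n hn (f x), fun x => by simpa [he] using h1 (f x)⟩

theorem div_mono {a b : Flow Γ} {S R : Finset Γ} {q : ℕ} [NeZero q] (h : WContains a b)
    (hb : Div (fun g => b g) S R q) : Div (fun g => a g) S R q := by
  classical
  obtain ⟨φ, hφ, h0, h1⟩ := hb
  obtain ⟨k, ⟨e⟩⟩ : ∃ k, Nonempty ((S → ZMod q) ≃ Fin k) :=
    ⟨_, ⟨Fintype.equivFin (S → ZMod q)⟩⟩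
  set Φ : Cantor → (S → ZMod q) := fun x s => φ s x with hΦ
  have hΦc : Continuous Φ := continuous_pi fun s => hφ s
  set C : Fin k → Set Cantor := fun i => Φ ⁻¹' {e.symm i} with hC
  set W : Finset Γ := insert 1 (S ∪ R) with hW
  have hP : pat b W C ∈ pats b W k := by
    refine ⟨C, fun i => (isClosed_discrete _).preimage hΦc, ?_, rfl⟩
    ext x
    simp only [hC, Set.mem_iUnion, Set.mem_preimage, Set.mem_singleton_iff, Set.mem_univ, iff_true]
    exact ⟨e (Φ x), by simp⟩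
  obtain ⟨C', hC', hcov, hpat⟩ := h _ _ hP
  have hdisj : ∀ i j x, x ∈ C' i → x ∈ C' j → i = j := by
    intro i j x hi hj
    have h2 : ({(i, 1), (j, 1)} : Set (Fin k × Γ)) ∈ pat a W C' := by
      refine ⟨?_, x, ?_⟩
      · rintro p (rfl | hp)
        · simp [hW]
        · rw [Set.mem_singleton_iff.1 hp]; simp [hW]
      · rw [Set.mem_iInter₂]
        rintro p (rfl | hp)
        · exact ⟨x, hi, by simp⟩
        · rw [Set.mem_singleton_iff.1 hp]
          exact ⟨x, hj, by simp⟩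
    rw [← hpat] at h2
    obtain ⟨-, y, hy⟩ := h2
    rw [Set.mem_iInter₂] at hy
    obtain ⟨y1, hy1, hy1'⟩ := hy (i, 1) (by simp)
    obtain ⟨y2, hy2, hy2'⟩ := hy (j, 1) (by simp)
    have hy1'' : y1 = y := (flow_one b y1).symm.trans hy1'
    have hy2'' : y2 = y := (flow_one b y2).symm.trans hy2'
    rw [hy1''] at hy1
    rw [hy2''] at hy2
    simp only [hC, Set.mem_preimage, Set.mem_singleton_iff] at hy1 hy2
    exact e.symm.injective (hy1.symm.trans hy2)
  have hex : ∀ x, ∃ i, x ∈ C' i := by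
    intro x
    have : x ∈ ⋃ i, C' i := by rw [hcov]; trivial
    exact Set.mem_iUnion.1 this
  choose ι hι using hex
  have hιc : Continuous ι := by
    rw [continuous_iff_isClosed]
    intro t _
    have : ι ⁻¹' t = ⋃ i ∈ t, C' i := by
      ext x
      simp only [Set.mem_preimage, Set.mem_iUnion, exists_prop]
      constructor
      · intro hx
        exact ⟨ι x, hx, hι x⟩
      · rintro ⟨i, hi, hx⟩
        rwa [hdisj _ _ x (hι x) hx]
    rw [this]
    exact t.toFinite.isClosed_biUnion fun i _ => hC' i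
  have key : ∀ x, ∃ y, Φ y = e.symm (ι x) ∧
      ∀ s ∈ S ∪ R, Φ (b s⁻¹ y) = e.symm (ι (a s⁻¹ x)) := by
    intro x
    have h2 : (insert (ι x, 1) ((fun s => (ι (a s⁻¹ x), s)) '' ((S ∪ R : Finset Γ) : Set Γ)) :
        Set (Fin k × Γ)) ∈ pat a W C' := by
      refine ⟨?_, x, ?_⟩
      · rintro p (rfl | ⟨s, hs, rfl⟩)
        · simp [hW]
        · exact Finset.mem_insert_of_mem hs
      · rw [Set.mem_iInter₂]
        rintro p (rfl | ⟨s, hs, rfl⟩)
        · exact ⟨x, hι x, by simp⟩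
        · refine ⟨a s⁻¹ x, hι _, ?_⟩
          change a s (a s⁻¹ x) = x
          rw [flow_mul, mul_inv_cancel, flow_one]
    rw [← hpat] at h2
    obtain ⟨-, y, hy⟩ := h2
    rw [Set.mem_iInter₂] at hy
    obtain ⟨y1, hy1, hy1'⟩ := hy (ι x, 1) (by simp)
    have hy1'' : y1 = y := (flow_one b y1).symm.trans hy1'
    rw [← hy1''] at hy
    refine ⟨y1, hy1, fun s hs => ?_⟩
    obtain ⟨y2, hy2, hy2'⟩ := hy (ι (a s⁻¹ x), s)
      (Set.mem_insert_of_mem _ ⟨s, Finset.mem_coe.2 hs, rfl⟩)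
    have h4 : b s⁻¹ y1 = y2 := by
      rw [← hy2']
      change b s⁻¹ (b s y2) = y2
      rw [flow_mul, inv_mul_cancel, flow_one]
    rw [h4]
    exact hy2
  refine ⟨fun s x => if hs : s ∈ S then e.symm (ι x) ⟨s, hs⟩ else 0, ?_, ?_, ?_⟩
  · intro s
    by_cases hs : s ∈ S
    · simp only [hs, dif_pos]
      exact (continuous_of_discreteTopology
        (f := fun i : Fin k => e.symm i ⟨s, hs⟩)).comp hιc
    · simp only [hs, dif_neg, not_false_eq_true]
      exact continuous_const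
  · intro s n hn x
    by_cases hs : s ∈ S
    · simp only [hs, dif_pos]
      obtain ⟨y, hy, hy'⟩ := key x
      rw [← hy, ← hy' n (Finset.mem_union_right _ hn)]
      exact h0 s n hn y
    · simp only [hs, dif_neg, not_false_eq_true]
  · intro x
    obtain ⟨y, hy, hy'⟩ := key x
    rw [← h1 y]
    apply Finset.sum_congr rfl
    intro s hs
    simp only [hs, dif_pos]
    rw [← hy, ← hy' s (Finset.mem_union_left _ hs)]

end Pool.Agent.Helper51.Width
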