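import Pool.Agent.Helper51.Width.Order
import Pool.Agent.Helper51.Width.Brouwer
import Pool.Agent.Helper51.Width.Avg
import Pool.Agent.Helper51.Width.Exist

/-!
# The affine subshifts and their flows
-/

set_option autoImplicit false

namespace Pool.Agent.Helper51.Width

variable {Γ : Type} [Group Γ]

/-- the least prime factor of the order of `f` (`2` if the order is infinite) -/
noncomputable def ell (f : Γ) : ℕ := (orderOf f).minFac

instance (f : Γ) : NeZero (ell f) := ⟨(Nat.minFac_pos _).ne'⟩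

variable (T : Set ℕ) (S R : ℕ → Finset Γ)

variable (Γ) in
/-- the ambient space -/
abbrev Om : Type := ((f : Γ) → Γ → ZMod (ell f)) × ((p : T) → Γ → Γ → ZMod (p : ℕ))

variable {T}

/-- left shift -/
def sh (g : Γ) (ω : Om Γ T) : Om Γ T :=
  ⟨fun f γ => ω.1 f (g⁻¹ * γ), fun p γ s => ω.2 p (g⁻¹ * γ) s⟩

theorem sh_continuous (g : Γ) : Continuous (sh (T := T) g) := by
  unfold sh
  fun_prop

theorem sh_one (ω : Om Γ T) : sh 1 ω = ω := by
  simp [sh]

theorem sh_sh (g h : Γ) (ω : Om Γ T) : sh g (sh h ω) = sh (g * h) ω := by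
  simp [sh, mul_assoc]

theorem sh_add (g : Γ) (ω ω' : Om Γ T) : sh g (ω + ω') = sh g ω + sh g ω' := rfl

variable (T)

/-- the affine subshift -/
def A : Set (Om Γ T) :=
  {ω | (∀ f γ, ω.1 f (γ * f) = ω.1 f γ + 1) ∧
    (∀ (p : T) γ, ∑ s ∈ S p, (ω.2 p γ s - ω.2 p (γ * s) s) = 1) ∧
    ∀ (p : T), ∀ n ∈ R p, ∀ γ s, ω.2 p (γ * n) s = ω.2 p γ s}

variable {T} {S} {R}

theorem sh_mem {ω : Om Γ T} (g : Γ) (h : ω ∈ A T S R) : sh g ω ∈ A T S R := by
  refine ⟨fun f γ => ?_, fun p γ => ?_, fun p n hn γ s => ?_⟩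
  · have := h.1 f (g⁻¹ * γ)
    rwa [mul_assoc] at this
  · have := h.2.1 p (g⁻¹ * γ)
    simpa only [sh, mul_assoc] using this
  · have := h.2.2 p n hn (g⁻¹ * γ) s
    simpa only [sh, mul_assoc] using this

variable (T S R)

/-- the space of the flow -/
abbrev X : Type := A (Γ := Γ) T S R × Cantor

/-- the flow -/
def rho : Γ →* (X (Γ := Γ) T S R ≃ₜ X (Γ := Γ) T S R) where
  toFun g :=
    { toFun := fun x => (⟨sh g x.1.1, sh_mem g x.1.2⟩, x.2)
      invFun := fun x => (⟨sh g⁻¹ x.1.1, sh_mem g⁻¹ x.1.2⟩, x.2)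
      left_inv := fun x => by
        ext1
        · apply Subtype.ext
          change sh g⁻¹ (sh g x.1.1) = x.1.1
          rw [sh_sh, inv_mul_cancel, sh_one]
        · rfl
      right_inv := fun x => by
        ext1
        · apply Subtype.ext
          change sh g (sh g⁻¹ x.1.1) = x.1.1
          rw [sh_sh, mul_inv_cancel, sh_one]
        · rfl
      continuous_toFun := by
        refine Continuous.prodMk (Continuous.subtype_mk ?_ _) continuous_snd
        exact (sh_continuous g).comp (continuous_subtype_val.comp continuous_fst)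
      continuous_invFun := by
        refine Continuous.prodMk (Continuous.subtype_mk ?_ _) continuous_snd
        exact (sh_continuous g⁻¹).comp (continuous_subtype_val.comp continuous_fst) }
  map_one' := by
    ext1 x
    change ((⟨sh 1 x.1.1, _⟩ : A (Γ := Γ) T S R), x.2) = x
    ext1
    · apply Subtype.ext
      exact sh_one _
    · rfl
  map_mul' g h := by
    ext1 x
    change ((⟨sh (g * h) x.1.1, _⟩ : A (Γ := Γ) T S R), x.2) =
      ((⟨sh g (sh h x.1.1), _⟩ : A (Γ := Γ) T S R), x.2)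
    congr 2
    exact (sh_sh _ _ _).symm

theorem rho_apply (g : Γ) (x : X (Γ := Γ) T S R) :
    rho T S R g x = (⟨sh g x.1.1, sh_mem g x.1.2⟩, x.2) := rfl

theorem rho_free (g : Γ) (hg : g ≠ 1) (x : X (Γ := Γ) T S R) : rho T S R g x ≠ x := by
  intro h
  have h1 : sh g x.1.1 = x.1.1 := congrArg (fun y => y.1.1) h
  have h2 : (sh g x.1.1).1 g⁻¹ 1 = x.1.1.1 g⁻¹ 1 := by rw [h1]
  have h3 : (sh g x.1.1).1 g⁻¹ 1 = x.1.1.1 g⁻¹ (1 * g⁻¹) := by
    change x.1.1.1 g⁻¹ (g⁻¹ * 1) = _
    rw [mul_one, one_mul]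
  rw [h3, x.1.2.1 g⁻¹ 1] at h2
  have h4 : (1 : ZMod (ell g⁻¹)) = 0 := by
    have := congrArg (fun z => z - x.1.1.1 g⁻¹ 1) h2
    simpa using this
  have h5 : ell g⁻¹ ≠ 1 := by
    unfold ell
    rw [Ne, Nat.minFac_eq_one_iff, orderOf_eq_one_iff]
    simpa using hg
  have : Fact (1 < ell g⁻¹) := ⟨by
    have := (inferInstance : NeZero (ell g⁻¹)).out
    omega⟩
  exact one_ne_zero h4

theorem isClosed_A : IsClosed (A (Γ := Γ) T S R) := by
  have : A (Γ := Γ) T S R = (⋂ f : Γ, ⋂ γ : Γ, {ω : Om Γ T | ω.1 f (γ * f) = ω.1 f γ + 1}) ∩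
      ((⋂ p : T, ⋂ γ : Γ, {ω : Om Γ T | ∑ s ∈ S p, (ω.2 p γ s - ω.2 p (γ * s) s) = 1}) ∩
      (⋂ p : T, ⋂ n ∈ R p, ⋂ γ : Γ, ⋂ s : Γ,
        {ω : Om Γ T | ω.2 p (γ * n) s = ω.2 p γ s})) := by
    ext ω
    simp [A]
  rw [this]
  refine (isClosed_iInter fun f => isClosed_iInter fun γ => isClosed_eq ?_ ?_).inter
    ((isClosed_iInter fun p => isClosed_iInter fun γ => isClosed_eq ?_ continuous_const).inter
    (isClosed_iInter fun p => isClosed_iInter fun n => isClosed_iInter fun _ =>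
      isClosed_iInter fun γ => isClosed_iInter fun s => isClosed_eq ?_ ?_))
  all_goals fun_prop

theorem compact_Om (hT : ∀ p ∈ T, p ≠ 0) : CompactSpace (Om Γ T) := by
  have : ∀ p : T, NeZero (p : ℕ) := fun p => ⟨hT p p.2⟩
  infer_instance

theorem compact_A (hT : ∀ p ∈ T, p ≠ 0) : CompactSpace (A (Γ := Γ) T S R) := by
  have := compact_Om (Γ := Γ) T hT
  exact isCompact_iff_compactSpace.mp (isClosed_A T S R).isCompact

theorem cantor_perfect (c : Cantor) (U : Set Cantor) (hU : IsOpen U) (hc : c ∈ U) :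
    ∃ c' ∈ U, c' ≠ c := by
  have h : Filter.Tendsto (fun n : ℕ => Function.update c n (!c n)) Filter.atTop (nhds c) := by
    rw [tendsto_pi_nhds]
    intro i
    apply tendsto_const_nhds.congr'
    filter_upwards [Filter.eventually_gt_atTop i] with n hn
    rw [Function.update_of_ne (by omega)]
  obtain ⟨n, hn⟩ := (h.eventually (hU.mem_nhds hc)).exists
  refine ⟨_, hn, fun h => ?_⟩
  have := congrFun h n
  simp at this

theorem X_homeo [Countable Γ] (hT : ∀ p ∈ T, p ≠ 0) (hne : (A (Γ := Γ) T S R).Nonempty) :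
    Nonempty (X (Γ := Γ) T S R ≃ₜ Cantor) := by
  have := compact_A (Γ := Γ) T S R hT
  have : Nonempty (A (Γ := Γ) T S R) := hne.to_subtype
  have : ∀ p : T, NeZero (p : ℕ) := fun p => ⟨hT p p.2⟩
  apply cantor_homeo (J := (Γ × Γ × ℕ) ⊕ (T × Γ × Γ × ℕ) ⊕ ℕ)
    (c := fun j x => match j with
      | Sum.inl (f, γ, n) => decide ((x.1.1.1 f γ).val = n)
      | Sum.inr (Sum.inl (p, γ, s, n)) => decide ((x.1.1.2 p γ s).val = n)
      | Sum.inr (Sum.inr n) => x.2 n)
  · rintro (⟨f, γ, n⟩ | ⟨p, γ, s, n⟩ | n)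
    · have h1 : Continuous (fun x : X (Γ := Γ) T S R => x.1.1.1 f γ) := by fun_prop
      exact (continuous_of_discreteTopology
        (f := fun z : ZMod (ell f) => decide (z.val = n))).comp h1
    · have h1 : Continuous (fun x : X (Γ := Γ) T S R => x.1.1.2 p γ s) := by fun_prop
      exact (continuous_of_discreteTopology
        (f := fun z : ZMod (p : ℕ) => decide (z.val = n))).comp h1
    · exact (continuous_apply n).comp continuous_snd
  · rintro ⟨⟨⟨x1, x2⟩, hx⟩, c⟩ ⟨⟨⟨y1, y2⟩, hy⟩, c'⟩ h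
    have h1 : x1 = y1 := by
      funext f γ
      have := h (Sum.inl (f, γ, (x1 f γ).val))
      simp only [decide_true] at this
      exact (ZMod.val_injective _ (by simpa using this.symm)).symm
    have h2 : x2 = y2 := by
      funext p γ s
      have := h (Sum.inr (Sum.inl (p, γ, s, (x2 p γ s).val)))
      simp only [decide_true] at this
      exact (ZMod.val_injective _ (by simpa using this.symm)).symm
    have h3 : c = c' := by
      funext n
      exact h (Sum.inr (Sum.inr n))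
    subst h1 h2 h3
    rfl
  · rintro ⟨a, c⟩ U hU hmem
    have hcont : Continuous (fun c : Cantor => ((a, c) : X (Γ := Γ) T S R)) := by fun_prop
    obtain ⟨c', hc', hne⟩ := cantor_perfect c _ (hU.preimage hcont) hmem
    exact ⟨(a, c'), hc', fun h => hne (congrArg Prod.snd h)⟩

/-- the flow on the Cantor space -/
noncomputable def flow (e : X (Γ := Γ) T S R ≃ₜ Cantor) : Flow Γ where
  toFun g := (e.symm.trans (rho T S R g)).trans e
  map_one' := by
    ext1 x
    change e (rho T S R 1 (e.symm x)) = x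
    rw [map_one]
    exact e.apply_symm_apply x
  map_mul' g h := by
    ext1 x
    change e (rho T S R (g * h) (e.symm x)) = e (rho T S R g (e.symm (e (rho T S R h (e.symm x)))))
    rw [map_mul, e.symm_apply_apply]
    rfl

theorem flow_free (e : X (Γ := Γ) T S R ≃ₜ Cantor) : IsFreeFlow (flow T S R e) := by
  intro g hg x h
  apply rho_free T S R g hg (e.symm x)
  apply e.injective
  rw [e.apply_symm_apply]
  exact h

theorem div_flow (e : X (Γ := Γ) T S R ≃ₜ Cantor) (W W' : Finset Γ) (q : ℕ) :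
    Div (fun g => flow T S R e g) W W' q ↔ Div (fun g => rho T S R g) W W' q := by
  constructor
  · apply div_of_map e e.continuous
    intro g x
    change e (rho T S R g x) = e (rho T S R g (e.symm (e x)))
    rw [e.symm_apply_apply]
  · apply div_of_map e.symm e.symm.continuous
    intro g x
    change e.symm (e (rho T S R g (e.symm x))) = _
    rw [e.symm_apply_apply]

theorem div_rho (p : T) : Div (fun g => rho T S R g) (S p) (R p) (p : ℕ) := by
  refine ⟨fun s x => x.1.1.2 p 1 s, fun s => by fun_prop, fun s n hn x => ?_, fun x => ?_⟩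
  · have h := x.1.2.2.2 p n hn 1 s
    change x.1.1.2 p (n⁻¹⁻¹ * 1) s = x.1.1.2 p 1 s
    rw [← h, inv_inv, mul_one, one_mul]
  · have h := x.1.2.2.1 p 1
    rw [← h]
    apply Finset.sum_congr rfl
    intro s _
    change x.1.1.2 p 1 s - x.1.1.2 p (s⁻¹⁻¹ * 1) s = _
    rw [inv_inv, mul_one, one_mul]

end Pool.Agent.Helper51.Width
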